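import Pool.Agent.Lib.MP_e1f7e2_al.FA.H1.Lembii

set_option autoImplicit false

/-! Project FA (MP_e1f7e2_al): module LEMBI. -/

namespace Pool.Agent.Lib.MP_e1f7e2_al.FA.H1

variable {K : Type*} [Field K] {w : Fin 3 → ℝ}

theorem dv_poly (hF : Facts K w) (x : A K 3) (R : Polynomial K) (hx : 0 < dg w x)
    (h : 0 < dg w (Polynomial.aeval x R)) : Dv w (Polynomial.aeval x R) x := by
  have hE : E w (Polynomial.aeval x R) x = 0 := by
    apply hF.e.zero
    have h1 : Polynomial.aeval x (R * Polynomial.X) = Polynomial.aeval x (Polynomial.X * R) := by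
      rw [mul_comm]
    rwa [map_mul, map_mul, Polynomial.aeval_X] at h1
  refine hF.e.dv _ x R.natDegree h hx ?_ (hF.d.poly x R hx)
  unfold Com
  rw [hE]; linarith

theorem caseN (hF : Facts K w) (c x y s : A K 3) (k : K) (R : Polynomial K)
    (hmn : Mn w c x y) (hs : dg w s < dg w y) (hx : 0 < dg w x) (hndv : ¬ Dv w y x)
    (hnd : ND w c x) (hP : y - s = k • c + Polynomial.aeval x R) : False := by
  have hy : 0 < dg w y := lt_of_le_of_lt (hF.d.nn s) hs
  have hdP : dg w (y - s) = dg w y := hF.d.sub_left y s hs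
  have key : Dv w (y - s) x → False := fun h =>
    hndv (hF.t.dvtop (y - s) y x (by rw [hdP]; exact hy)
      (by rw [show y - s - y = -s by abel, hF.d.neg, hdP]; exact hs) h)
  by_cases hk : k = 0
  · subst hk
    rw [zero_smul, zero_add] at hP
    apply key
    rw [hP]
    apply dv_poly hF x R hx
    rw [← hP, hdP]; exact hy
  · obtain ⟨h1, h2⟩ := hF.t.nd1 c x k R hnd hk
    rcases lt_or_gt_of_ne h2 with h | h
    · apply key
      rw [max_eq_right h.le] at h1
      have h0 : 0 < dg w (Polynomial.aeval x R) := lt_of_le_of_lt (hF.d.nn c) h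
      refine hF.t.dvtop (Polynomial.aeval x R) (y - s) x h0 ?_ (dv_poly hF x R hx h0)
      rw [hP, show Polynomial.aeval x R - (k • c + Polynomial.aeval x R) = -(k • c) by abel,
        hF.d.neg, hF.d.smul k c hk]
      exact h
    · rw [max_eq_left h.le, ← hP, hdP] at h1
      have hm := hmn ((-k⁻¹) • y) (Subalgebra.smul_mem _ (hF.s.bg x y) _)
      have he : c + (-k⁻¹) • y = (-k⁻¹) • (s + Polynomial.aeval x R) := by
        have : y = s + k • c + Polynomial.aeval x R := by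
          have : y = y - s + s := by abel
          rw [this, hP]; abel
        have h3 : (-k⁻¹) • (k • c) = -c := by
          rw [smul_smul, neg_mul, inv_mul_cancel₀ hk, neg_one_smul]
        rw [this, smul_add, smul_add, smul_add, h3]
        abel
      rw [he, hF.d.smul _ _ (neg_ne_zero.2 (inv_ne_zero hk))] at hm
      have := hF.d.add_le s (Polynomial.aeval x R)
      rcases le_max_iff.1 (hm.trans this) with h' | h'
      · linarith
      · linarith

theorem mn_ndv (hF : Facts K w) (c x y : A K 3) (hmn : Mn w c x y) : ¬ Dv w c x := by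
  rintro ⟨a, k, _, h⟩
  have := hmn (-(a • x ^ k)) (Subalgebra.neg_mem _ (Subalgebra.smul_mem _
    (Subalgebra.pow_mem _ (hF.s.bf x y) _) _))
  rw [← sub_eq_add_neg] at this
  linarith

theorem mn_comm (hF : Facts K w) (c x y : A K 3) (hmn : Mn w c x y) : Mn w c y x := by
  intro q hq
  rw [hF.s.bcomm] at hq
  exact hmn q hq

theorem com_symm (hF : Facts K w) (x y : A K 3) (h : Com w x y) : Com w y x := by
  unfold Com at *
  rw [hF.e.comm]; linarith

variable (K w)

theorem lembi (hF : Facts K w) : LembiStatement K w := by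
  intro ν l1 m1 c t hA hN hC hν hfr hnd hor hmn hDf hlt hfr' hred hvd hmt hq htl
  have hpl : 0 < dg w l1 := hnd.pf
  have hpm : 0 < dg w m1 := hnd.pg
  have hfr2 : Fr c l1 m1 := hF.f.p12 _ _ _ (hF.f.p23 _ _ _ hfr)
  have hpc : 0 < dg w c := hF.f.pos _ _ _ hfr2
  have hcl : c * l1 ≠ l1 * c := hF.f.nc _ _ _ hfr2
  have hcm : c * m1 ≠ m1 * c := hF.f.nc _ _ _ (hF.f.p23 _ _ _ hfr2)
  have hV : vd w (sp l1 m1 c) = dg w l1 + dg w m1 + dg w c := hF.v.eq _ _ _ hfr hor
  have hmn' : Mn w c m1 l1 := mn_comm hF _ _ _ hmn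
  have ncl : ¬ Dv w c l1 := mn_ndv hF _ _ _ hmn
  have ncm : ¬ Dv w c m1 := mn_ndv hF _ _ _ hmn'
  have hsymm : Df w l1 m1 = Df w m1 l1 := by unfold Df; rw [hF.e.comm]; ring
  -- the polynomial `P = m1 - t`
  have hdP : dg w (m1 - t) = dg w m1 := hF.d.sub_left m1 t htl
  have hP0 : 0 < dg w (m1 - t) := by rw [hdP]; exact hpm
  have htop : dg w (m1 - (m1 - t)) < dg w m1 := by
    rw [show m1 - (m1 - t) = t by abel]; exact htl
  have hPn : ¬ Dv w (m1 - t) l1 := fun h => hnd.ngf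
    (hF.t.dvtop (m1 - t) m1 l1 hP0 (by
      rw [show m1 - t - m1 = -t by abel, hF.d.neg, hdP]; exact htl) h)
  have hml : Com w m1 l1 := com_symm hF _ _ hnd.com
  have hPc : Com w (m1 - t) l1 := hF.t.comtop m1 (m1 - t) l1 hpm hpl htop hml
  have hcoml : Com w c l1 := by
    by_contra hcon
    have h1 : ¬ Com w l1 c := fun h => hcon (com_symm hF _ _ h)
    exact hPn (hF.t.fr3 l1 c (m1 - t) hpl hpc h1 (by rw [hF.s.bcomm]; exact hq) hP0 hPc)
  have hcomm : Com w c m1 := hF.c.trans c l1 m1 hpc hpl hpm hcoml hnd.com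
  have h1 : E w m1 l1 < E w (m1 - t) l1 := by
    have := hF.t.xa c l1 (m1 - t) hcl hq hP0 hPn
    unfold Df at hlt
    rw [hdP] at this
    have e1 := hF.e.comm l1 m1
    linarith
  have hsum : t + (m1 - t) = m1 := by abel
  by_cases hA1 : Dv w l1 c
  swap
  · -- `(c, l1)` nondivisible
    have hndc : ND w c l1 := ⟨hpc, hpl, hcoml, ncl, hA1⟩
    have hl := hN l1 c t hfr' hred hvd (hF.t.ndsymm _ _ hndc) (mn_comm hF _ _ _ hmt) (m1 - t)
      (by rw [hF.s.bcomm]; exact hq) hP0 hPc hPn (by rw [hdP]; exact htl)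
      (by rw [hsum]; exact h1)
    obtain ⟨_, k, R, hk⟩ := hl
    exact caseN hF c l1 m1 t k R hmn htl hpl hnd.ngf hndc hk
  -- `l1 = a c^n + l2`
  obtain ⟨_, _, a, n, ha, hn1, hdn, hl2⟩ := hF.e.dv' l1 c hpl hA1
  have hfr3 : Fr c t l1 := by
    have := hF.f.p12 _ _ _ hfr'
    exact hF.f.p23 _ _ _ this
  have hfr4 : Fr c m1 l1 := hF.f.p23 _ _ _ hfr2
  set l2 : A K 3 := l1 - a • c ^ n with hl2d
  have hcn : ∀ x : A K 3, a • c ^ n ∈ B c x := fun x =>
    Subalgebra.smul_mem _ (Subalgebra.pow_mem _ (hF.s.bf c x) _) _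
  have hl21 : ∀ x : A K 3, l2 - l1 ∈ B c x := fun x => by
    rw [hl2d, show l1 - a • c ^ n - l1 = -(a • c ^ n) by abel]
    exact Subalgebra.neg_mem _ (hcn x)
  -- `⟨c, l2, t⟩`
  have s1 : sp c t l1 = sp l1 c t := by
    rw [hF.s.scomm', hF.s.scomm]
  have r1 : Red w (sp c t l2) := by
    have hadj := (hF.f.adjm c t l1 l2 hfr3 (hl21 t)).2
    refine hA _ _ ?_ ?_ hadj
    · rw [s1]; linarith
    · rw [s1]; exact hred
  have f1 : Fr c t l2 := (hF.f.adjm c t l1 l2 hfr3 (hl21 t)).1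
  have f2 : Fr c l2 t := hF.f.p23 _ _ _ f1
  have hBl : B c l2 = B c l1 := by
    have : l2 = (1 : K) • l1 + Polynomial.aeval c (-(Polynomial.C a * Polynomial.X ^ n)) := by
      rw [hl2d, one_smul, map_neg, map_mul, map_pow, Polynomial.aeval_X, Polynomial.aeval_C,
        Algebra.smul_def]
      abel
    rw [hF.s.bcomm c l2, this, hF.s.bel l1 c 1 _ one_ne_zero, hF.s.bcomm]
  -- `⟨c, l2, m1⟩`
  have r2 : Red w (sp c l2 m1) := by
    have hadj := (hF.f.adjm c l2 t m1 f2 (by rw [hBl]; exact hq)).2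
    refine hA _ _ ?_ (by rw [hF.s.scomm']; exact r1) hadj
    have := hF.v.le c l2 t f2
    linarith
  have f3 : Fr c l2 m1 := (hF.f.adjm c l2 t m1 f2 (by rw [hBl]; exact hq)).1
  have f4 : Fr c m1 l2 := hF.f.p23 _ _ _ f3
  -- `⟨c, m1, l2*⟩`
  obtain ⟨q, hqB, hqm⟩ := hF.o.mnex c m1 l2
  set ls : A K 3 := l2 + q with hls
  have hlsle : dg w ls ≤ dg w l2 := by
    have := hqm (-q) (Subalgebra.neg_mem _ hqB)
    rwa [show ls + -q = l2 by rw [hls]; abel] at this
  have hlslt : dg w ls < dg w l1 := lt_of_le_of_lt hlsle hl2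
  have hadj3 := hF.f.adjm c m1 l2 ls f4 (by rw [hls, show l2 + q - l2 = q by abel]; exact hqB)
  have f5 : Fr c m1 ls := hadj3.1
  have r3 : Red w (sp c m1 ls) := by
    refine hA _ _ ?_ (by rw [hF.s.scomm']; exact r2) hadj3.2
    have := hF.v.le c m1 l2 f4
    linarith
  have hv3 : vd w (sp c m1 ls) < vd w (sp l1 m1 c) := by
    have := hF.v.le c m1 ls f5
    linarith
  have hP'B : l1 - ls ∈ B c m1 := by
    have : l1 - ls = a • c ^ n + -q := by rw [hls, hl2d]; abel
    rw [this]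
    exact Subalgebra.add_mem _ (hcn m1) (Subalgebra.neg_mem _ hqB)
  have hdP' : dg w (l1 - ls) = dg w l1 := hF.d.sub_left l1 ls hlslt
  have hP'0 : 0 < dg w (l1 - ls) := by rw [hdP']; exact hpl
  have htop' : dg w (l1 - (l1 - ls)) < dg w l1 := by
    rw [show l1 - (l1 - ls) = ls by abel]; exact hlslt
  have hP'n : ¬ Dv w (l1 - ls) m1 := fun h => hnd.nfg
    (hF.t.dvtop (l1 - ls) l1 m1 hP'0 (by
      rw [show l1 - ls - l1 = -ls by abel, hF.d.neg, hdP']; exact hlslt) h)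
  have hP'c : Com w (l1 - ls) m1 := hF.t.comtop l1 (l1 - ls) m1 hpl hpm htop' hnd.com
  have h2 : E w l1 m1 < E w (l1 - ls) m1 := by
    have := hF.t.xa c m1 (l1 - ls) hcm hP'B hP'0 hP'n
    rw [hDf] at hlt
    unfold Df at hlt
    rw [hdP'] at this
    linarith
  have hsum' : ls + (l1 - ls) = l1 := by abel
  by_cases hA2 : Dv w m1 c
  swap
  · have hndc : ND w c m1 := ⟨hpc, hpm, hcomm, ncm, hA2⟩
    have hl := hN m1 c ls (hF.f.p12 _ _ _ f5) (by rw [hF.s.scomm]; exact r3)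
      (by rw [hF.s.scomm]; exact hv3) (hF.t.ndsymm _ _ hndc) (mn_comm hF _ _ _ hqm) (l1 - ls)
      (by rw [hF.s.bcomm]; exact hP'B) hP'0 hP'c hP'n (by rw [hdP']; exact hlslt)
      (by rw [hsum']; exact h2)
    obtain ⟨_, k, R, hk⟩ := hl
    exact caseN hF c m1 l1 ls k R hmn' hlslt hpm hnd.nfg hndc hk
  obtain ⟨_, _, b, i, hb, hi1, hdi, hm2⟩ := hF.e.dv' m1 c hpm hA2
  rcases lt_trichotomy n i with hni | hni | hni
  · -- `n < i`: Lemma C for `(c, l1, t)`
    have hl := hC c l1 t (hF.f.p12 _ _ _ hfr') (by rw [hF.s.scomm]; exact hred)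
      (by rw [hF.s.scomm]; exact hvd) i n a b (m1 - t) hn1 hni hl2 hmt hq
      (by
        rw [hdP, show m1 - t - b • c ^ i = (m1 - b • c ^ i) - t by abel]
        exact lt_of_le_of_lt (hF.d.sub_le _ _) (max_lt hm2 htl))
      hPn (by rw [hdP]; exact htl)
    rw [hsum] at hl
    linarith
  · subst hni
    exact hF.t.ndne l1 m1 hnd (by rw [hdn, hdi])
  · -- `i < n`: Lemma C for `(c, m1, ls)`
    have hl := hC c m1 ls f5 r3 hv3 n i b a (l1 - ls) hi1 hni hm2 hqm hP'B
      (by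
        rw [hdP', show l1 - ls - a • c ^ n = l2 - ls by rw [hl2d]; abel]
        exact lt_of_le_of_lt (hF.d.sub_le _ _) (max_lt hl2 hlslt))
      hP'n (by rw [hdP']; exact hlslt)
    rw [hsum'] at hl
    linarith

end Pool.Agent.Lib.MP_e1f7e2_al.FA.H1
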