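import Pool.Agent.Lib.MP_e1f7e2_al.FA.Iface

set_option autoImplicit false

/-! Project FA (MP_e1f7e2_al): module LEMBII. -/

namespace Pool.Agent.Lib.MP_e1f7e2_al.FA.H1

variable {K : Type*} [Field K] {w : Fin 3 → ℝ}

theorem dv_smul_right (f g : A K 3) (a : K) (ha : a ≠ 0) (h : Dv w f (a • g)) : Dv w f g := by
  obtain ⟨c, k, hk, hlt⟩ := h
  refine ⟨c * a ^ k, k, hk, ?_⟩
  rwa [smul_pow, smul_smul] at hlt

theorem com_smul (hF : Facts K w) (f g : A K 3) (a : K) (ha : a ≠ 0) (h : Com w f g) :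
    Com w (a • f) g := by
  unfold Com at *
  rw [hF.e.smul a f g ha, hF.d.smul a f ha]
  exact h

theorem nd_smul (hF : Facts K w) (f g : A K 3) (a : K) (ha : a ≠ 0) (h : ND w f g) :
    ND w (a • f) g where
  pf := by rw [hF.d.smul a f ha]; exact h.pf
  pg := h.pg
  com := com_smul hF f g a ha h.com
  nfg := fun h' => h.nfg ((hF.t.dvsmul f g a ha h.pf).1 h')
  ngf := fun h' => h.ngf (dv_smul_right g f a ha h')

/-- `c = c0 + k m1` with `|c0| < |m1|` behaves like `m1` -/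
theorem nd_add (hF : Facts K w) (c0 m l : A K 3) (k : K) (hk : k ≠ 0) (hlt : dg w c0 < dg w m)
    (h : ND w m l) : ND w (c0 + k • m) l := by
  have h1 : ND w (k • m) l := nd_smul hF m l k hk h
  refine hF.t.ndtop (k • m) (c0 + k • m) l ?_ h1
  rw [show k • m - (c0 + k • m) = -c0 by abel, hF.d.neg, hF.d.smul k m hk]
  exact hlt

theorem dg_add' (hF : Facts K w) (c0 m : A K 3) (k : K) (hk : k ≠ 0) (hlt : dg w c0 < dg w m) :
    dg w (c0 + k • m) = dg w m := by
  rw [hF.d.add_right c0 (k • m) (by rw [hF.d.smul k m hk]; exact hlt), hF.d.smul k m hk]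

variable (K w)

theorem lembii (hF : Facts K w) : LembiiStatement K w := by
  intro ν l1 m1 c0 c t k hB hv hfr hnd hmn hk hc hlt hfr' hred hq htl
  have hp1 : 0 < dg w l1 := hF.f.pos _ _ _ hfr
  have hdc : dg w c = dg w m1 := by rw [hc]; exact dg_add' hF c0 m1 k hk hlt
  have hcl : l1 * c ≠ c * l1 := hF.f.nc _ _ _ hfr'
  have hcl' : c * l1 ≠ l1 * c := fun h => hcl h.symm
  have hndc : ND w c l1 := by
    rw [hc]; exact nd_add hF c0 m1 l1 k hk hlt (hF.t.ndsymm _ _ hnd)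
  have hnd' : ND w l1 c := hF.t.ndsymm _ _ hndc
  have hgd : Gd w l1 c := hB l1 c t hfr' hv hred hnd'
  have hgd' : Gd w c l1 := hF.t.gdsymm _ _ hgd
  have hp0 : 0 < dg w c0 := by
    have h1 := hF.f.p23 _ _ _ hfr
    have h2 := hF.f.p12 _ _ _ h1
    exact hF.f.pos _ _ _ h2
  have hdq : dg w (c0 - t) = dg w c0 := hF.d.sub_left c0 t htl
  have hne : dg w l1 ≠ dg w m1 := hF.t.ndne l1 m1 hnd
  have hlt1 : dg w l1 < dg w m1 := by
    rcases lt_or_gt_of_ne hne with h | h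
    · exact h
    · exfalso
      have hE : dg w c < E w l1 c := by
        have := hgd.lmax
        rw [max_eq_left (by rw [hdc]; exact h.le)] at this
        unfold Df at this
        linarith
      have hqB : c0 - t ∈ B l1 c := by rw [hF.s.bcomm]; exact hq
      obtain ⟨d, hd⟩ := hF.t.xe0 l1 c (c0 - t) hcl (by rw [hdc]; exact h) hnd'.nfg hE hqB
        (by rw [hdq, hdc]; exact hlt)
      rw [hd, hF.d.const] at hdq
      linarith
  obtain ⟨a, R, hqe, hR, ha⟩ := hF.t.w1 c l1 (c0 - t) hcl' hndc hgd' (by rw [hdc]; exact hlt1) hq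
    (by rw [hdq, hdc]; exact hlt)
  rw [hdq] at hR ha
  have hx : c0 + -(Polynomial.aeval l1 R) = t + a • (c * l1 - l1 * c) := by
    have : c0 = c0 - t + t := by abel
    rw [this, hqe]; abel
  have hmin : dg w c0 ≤ dg w (t + a • (c * l1 - l1 * c)) := by
    rw [← hx]
    refine hmn _ ?_
    refine Subalgebra.neg_mem _ ?_
    rw [hF.s.bcomm]
    exact hF.s.bpoly m1 l1 R
  have hmax := hF.d.add_le t (a • (c * l1 - l1 * c))
  have hle : dg w c0 ≤ dg w (a • (c * l1 - l1 * c)) := by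
    rcases le_max_iff.1 (hmin.trans hmax) with h | h
    · linarith
    · exact h
  have ha0 : a ≠ 0 := by
    rintro rfl
    rw [zero_smul, hF.d.zero] at hle
    linarith
  rw [hF.d.smul a _ ha0] at hle
  have hEc : E w c l1 = dg w c0 := le_antisymm (ha ha0).1 hle
  have hEc0 : E w c0 l1 = dg w c0 + dg w l1 := by
    have e1 : E w c0 l1 = E w (t + a • (c * l1 - l1 * c)) l1 := by
      rw [← hx, ← hF.e.addp c0 l1 (-R), map_neg]
    have e2 : E w (a • (c * l1 - l1 * c)) l1 = dg w c0 + dg w l1 := by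
      rw [hF.e.smul a _ _ ha0, hF.e.nc c l1 hcl', hEc]
    have e3 : E w t l1 ≤ dg w t + dg w l1 := hF.e.le t l1
    rw [e1, add_comm t, hF.e.add_left _ _ _ (by rw [e2]; linarith), e2]
  refine ⟨hlt1, hEc0, ?_⟩
  have e4 : E w ((-1 : K) • c0 + c) l1 = dg w c0 + dg w l1 := by
    rw [hF.e.add_left _ _ _ (by
      rw [hF.e.smul (-1 : K) c0 l1 (neg_ne_zero.2 one_ne_zero), hEc0, hEc]; linarith),
      hF.e.smul (-1 : K) c0 l1 (neg_ne_zero.2 one_ne_zero), hEc0]
  have e5 : (-1 : K) • c0 + c = k • m1 := by rw [hc, neg_smul, one_smul]; abel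
  rw [e5, hF.e.smul k _ _ hk] at e4
  rw [hF.e.comm]; exact e4

end Pool.Agent.Lib.MP_e1f7e2_al.FA.H1
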