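import Pool.Agent.Lib.MP_e1f7e2_al.FA.Iface

set_option autoImplicit false

/-! Project FA (MP_e1f7e2_al): module LEMN. -/

namespace Pool.Agent.Lib.MP_e1f7e2_al.FA.H1

theorem lemn (K : Type*) [Field K] (w : Fin 3 → ℝ) (hF : Facts K w) : LemnStatement K w := by
  intro ν hB hLB l m c hfr hred hvd hnd hmn q hq hq0 hcom hndv hcq hE
  have hlm : l * m ≠ m * l := hF.f.nc _ _ _ hfr
  have hml : m * l ≠ l * m := fun h => hlm h.symm
  have hqB : q ∈ B m l := by rw [hF.s.bcomm]; exact hq
  -- step 1
  have h1 : E w c l = E w q l := by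
    rcases lt_trichotomy (E w c l) (E w q l) with h | h | h
    · have := hF.e.add_left q c l h
      rw [add_comm] at this; linarith
    · exact h
    · have := hF.e.add_left c q l h
      linarith
  have h2 : dg w q - dg w m + E w m l ≤ E w q l := hF.t.xa m l q hml hqB hq0 hndv
  have hEc : E w m l = E w l m := hF.e.comm m l
  have h3 : Df w c l < Df w l m := by
    unfold Df; linarith
  obtain ⟨b1, b2, b3⟩ := hLB l m c hfr hred hvd hnd hmn h3
  have hne : dg w l ≠ dg w m := hF.t.ndne l m hnd
  rcases lt_or_gt_of_ne hne with hlt | hgt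
  · refine ⟨hlt, ?_⟩
    rw [min_eq_left hlt.le] at b3
    exact hF.t.lin m l q hml hqB (by linarith)
  · exfalso
    rw [min_eq_right hgt.le] at b3
    have hle : dg w q ≤ dg w l := by linarith
    have hlt : dg w q < dg w l := by
      rcases hle.lt_or_eq with h | h
      · exact h
      · exact absurd (hF.e.dv q l 1 hq0 hnd.pf hcom (by simpa using h)) hndv
    have hG : Gd w l m := hB l m c hfr hvd hred hnd
    obtain ⟨a, R, hqe, hR, ha⟩ := hF.t.w1 l m q hlm hnd hG hgt hq hlt
    by_cases ha0 : a = 0
    · subst ha0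
      rw [zero_smul, zero_add] at hqe
      by_cases hR0 : R.natDegree = 0
      · obtain ⟨d, hd⟩ := hF.d.polyc m R hR0
        rw [hqe, hd, hF.d.const] at hq0
        exact lt_irrefl _ hq0
      · have := hF.e.poly l m R hlm hR0
        rw [← hqe] at this
        linarith
    · obtain ⟨_, h⟩ := ha ha0
      have := hnd.pg
      linarith

end Pool.Agent.Lib.MP_e1f7e2_al.FA.H1
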